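import Pool.Agent.helper90.DH.SpecI

/-!
# Module NUM of project dh (row d2:iNUM)
-/

set_option autoImplicit false

open Filter Topology MeasureTheory
open scoped commutatorElement

namespace Pool.Agent.helper90.DH

open Pool.Agent.helper64.D2

theorem NUM : NUM_stmt := by
  intro C w0
  refine ⟨C * 2 ^ (10 * w0) + 41001 + 1000 * (3 * w0 * 2 ^ w0 + 10 * w0 + C), fun ρ hρ => ?_⟩
  have h1 : 41001 ≤ ρ := by omega
  have h2 : C * 2 ^ (10 * w0) ≤ ρ := by omega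
  have h3 : 1000 * (3 * w0 * 2 ^ w0 + 10 * w0 + C) ≤ ρ := by omega
  have h4 : C ≤ ρ := by omega
  have h5 : ρ ≤ ρ ^ 2 := Nat.le_self_pow (by norm_num) ρ
  have h6 : ρ ≤ ρ ^ 4 := Nat.le_self_pow (by norm_num) ρ
  refine ⟨by omega, by omega, ?_, by omega⟩
  have h7 : 41 * ρ ≤ ρ ^ 2 / 1000 := by
    rw [Nat.le_div_iff_mul_le (by norm_num)]
    nlinarith
  calc C * (ρ ^ 4) ^ 10 * 2 ^ (10 * w0) = (C * 2 ^ (10 * w0)) * ρ ^ 40 := by ring
    _ ≤ ρ * ρ ^ 40 := Nat.mul_le_mul_right _ h2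
    _ = ρ ^ 41 := by ring
    _ ≤ (2 ^ ρ) ^ 41 := Nat.pow_le_pow_left Nat.lt_two_pow_self.le 41
    _ = 2 ^ (41 * ρ) := by rw [← pow_mul, Nat.mul_comm]
    _ ≤ 2 ^ (ρ ^ 2 / 1000) := Nat.pow_le_pow_right (by norm_num) h7

end Pool.Agent.helper90.DH
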